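import Pool.Agent.Lib.MP_188a32_co_helper11.Homog
import Pool.Agent.Lib.MP_188a32_co_helper24.Cells

/-!
# Tasks A and B combined
-/

set_option autoImplicit false

namespace Pool.Agent.LinKnot.H11

open Pool.Agent.LinKnot

/-- Tasks A and B. -/
theorem exists_homogeneous : ∃ C d : ℕ, ∀ m n : ℕ, 1 ≤ m → C * m ^ d ≤ n → ∀ p : Fin n → R3,
    (∀ i j k l : Fin n, i ≠ j → i ≠ k → i ≠ l → j ≠ k → j ≠ l → k ≠ l →
      orient (p i) (p j) (p k) (p l) ≠ 0) →
    ∃ a b : Fin m → Fin n, ∀ i j k l : Fin m, i < j → k < l →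
      0 < orient (p (a i)) (p (a j)) (p (b k)) (p (b l)) :=
  exists_homogeneous_of_cells (fun D ε h => Pool.Agent.LinKnot.H24.cells D ε h)

end Pool.Agent.LinKnot.H11
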