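import Pool.Agent.Lib.MP_188a32_co.Basic

/-!
# Task B, part 1: strong Erdős–Hajnal property for bilinear signs (from `cells`)
-/

set_option autoImplicit false

namespace Pool.Agent.LinKnot.H11

open scoped Classical
open Pool.Agent.LinKnot

/-- The statement of Task A. -/
def CellsStmt : Prop :=
  ∀ (D : ℕ) (ε : ℝ), 0 < ε → ∃ T : ℕ, ∀ (V : Type) [AddCommGroup V] [Module ℝ V]
    [FiniteDimensional ℝ V], Module.finrank ℝ V = D → ∀ (X : Type) [Fintype X] (w : X → ℝ),
    (∀ x, 0 ≤ w x) → ∀ u : X → V, ∃ (τ : X → Fin T) (R : Fin T → Fin D → V),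
      (∀ x, ∃ c : Fin D → ℝ, (∀ i, 0 < c i) ∧ u x = ∑ i, c i • R (τ x) i) ∧
      ∀ f : V →ₗ[ℝ] ℝ, (∑ x with Crosses f (R (τ x)), w x) ≤ ε * ∑ x, w x

section sign

variable {V : Type} [AddCommGroup V] [Module ℝ V] {D : ℕ}

/-- strictly positive combination -/
def PosComb (v : V) (R : Fin D → V) : Prop :=
  ∃ c : Fin D → ℝ, (∀ i, 0 < c i) ∧ v = ∑ i, c i • R i

lemma PosComb.map_eq {v : V} {R : Fin D → V} {c : Fin D → ℝ} (hv : v = ∑ i, c i • R i)
    (f : V →ₗ[ℝ] ℝ) : f v = ∑ i, c i * f (R i) := by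
  rw [hv, map_sum]; simp

/-- a weakly positive value on a positive combination propagates to the generators if the form
does not cross. -/
lemma nc_nonneg {v : V} {R : Fin D → V} (hv : PosComb v R) {f : V →ₗ[ℝ] ℝ}
    (hf : ¬ Crosses f R) (h : 0 ≤ f v) : ∀ i, 0 ≤ f (R i) := by
  obtain ⟨c, hc, rfl⟩ := hv
  by_contra hcon
  push Not at hcon
  obtain ⟨i, hi⟩ := hcon
  have hall : ∀ j, f (R j) ≤ 0 := by
    intro j
    by_contra hj
    exact hf ⟨⟨j, not_le.1 hj⟩, ⟨i, hi⟩⟩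
  have : f (∑ i, c i • R i) < 0 := by
    rw [PosComb.map_eq rfl]
    calc ∑ j, c j * f (R j) < ∑ j : Fin D, (0 : ℝ) := by
          apply Finset.sum_lt_sum
          · intro j _; exact mul_nonpos_of_nonneg_of_nonpos (hc j).le (hall j)
          · exact ⟨i, Finset.mem_univ _, mul_neg_of_pos_of_neg (hc i) hi⟩
      _ = 0 := by simp
  linarith

lemma Crosses.neg_iff {f : V →ₗ[ℝ] ℝ} {R : Fin D → V} : Crosses (-f) R ↔ Crosses f R := by
  unfold Crosses
  constructor
  · rintro ⟨⟨i, hi⟩, ⟨j, hj⟩⟩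
    exact ⟨⟨j, by simpa using hj⟩, ⟨i, by simpa using hi⟩⟩
  · rintro ⟨⟨i, hi⟩, ⟨j, hj⟩⟩
    exact ⟨⟨j, by simpa using hj⟩, ⟨i, by simpa using hi⟩⟩

lemma Crosses.smul_iff {f : V →ₗ[ℝ] ℝ} {R : Fin D → V} {s : ℝ} (hs : s = 1 ∨ s = -1) :
    Crosses (s • f) R ↔ Crosses f R := by
  rcases hs with rfl | rfl
  · simp
  · have : (-1 : ℝ) • f = -f := by ext x; simp
    rw [this]; exact Crosses.neg_iff

lemma nc_nonneg' {v : V} {R : Fin D → V} (hv : PosComb v R) {f : V →ₗ[ℝ] ℝ} {s : ℝ}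
    (hs : s = 1 ∨ s = -1)
    (hf : ¬ Crosses f R) (h : 0 ≤ s * f v) : ∀ i, 0 ≤ s * f (R i) := by
  have := nc_nonneg hv (f := s • f) (by rwa [Crosses.smul_iff hs]) (by simpa using h)
  simpa using this

lemma posComb_nonneg {v : V} {R : Fin D → V} (hv : PosComb v R) {f : V →ₗ[ℝ] ℝ} {s : ℝ}
    (h : ∀ i, 0 ≤ s * f (R i)) : 0 ≤ s * f v := by
  obtain ⟨c, hc, rfl⟩ := hv
  rw [PosComb.map_eq rfl, Finset.mul_sum]
  apply Finset.sum_nonneg
  intro i _
  have := mul_nonneg (hc i).le (h i)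
  nlinarith

/-- if the form does not cross, the sign on positive combinations is constant. -/
lemma nc_sign {v : V} {R : Fin D → V} (hv : PosComb v R) {f : V →ₗ[ℝ] ℝ}
    (hf : ¬ Crosses f R) : SignType.sign (f v) = SignType.sign (∑ i, f (R i)) := by
  obtain ⟨c, hc, rfl⟩ := hv
  rw [PosComb.map_eq rfl]
  by_cases h1 : ∃ i, 0 < f (R i)
  · obtain ⟨i, hi⟩ := h1
    have hall : ∀ j, 0 ≤ f (R j) := by
      intro j
      by_contra hj
      exact hf ⟨⟨i, hi⟩, ⟨j, not_le.1 hj⟩⟩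
    rw [sign_pos, sign_pos]
    · apply Finset.sum_pos' (fun j _ => hall j) ⟨i, Finset.mem_univ _, hi⟩
    · apply Finset.sum_pos' (fun j _ => mul_nonneg (hc j).le (hall j))
        ⟨i, Finset.mem_univ _, mul_pos (hc i) hi⟩
  · push Not at h1
    by_cases h2 : ∃ i, f (R i) < 0
    · obtain ⟨i, hi⟩ := h2
      rw [sign_neg, sign_neg]
      · have := Finset.sum_pos' (s := Finset.univ) (f := fun j => - f (R j))
          (fun j _ => by have := h1 j; simpa using this) ⟨i, Finset.mem_univ _, by simpa using hi⟩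
        simpa using this
      · have := Finset.sum_pos' (s := Finset.univ) (f := fun j => - (c j * f (R j)))
          (fun j _ => by
            have := mul_nonneg (hc j).le (neg_nonneg.2 (h1 j)); linarith)
          ⟨i, Finset.mem_univ _, by
            have := mul_pos (hc i) (neg_pos.2 hi); linarith⟩
        simpa using this
    · push Not at h2
      have h0 : ∀ i, f (R i) = 0 := fun i => le_antisymm (h1 i) (h2 i)
      simp [h0]

end sign

/-- weights restricted to a subset -/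
lemma sum_filter_le_sum {X : Type} [Fintype X] {w : X → ℝ} (hw : ∀ x, 0 ≤ w x) (p : X → Prop) :
    ∑ x with p x, w x ≤ ∑ x, w x :=
  Finset.sum_le_sum_of_subset_of_nonneg (Finset.filter_subset _ _) (fun x _ _ => hw x)

/-- Strong Erdős–Hajnal property of one bilinear sign. -/
lemma eh_one (hcells : CellsStmt) (D : ℕ) : ∃ δ : ℝ, 0 < δ ∧ δ ≤ 1 ∧
    ∀ (V : Type) [AddCommGroup V] [Module ℝ V] [FiniteDimensional ℝ V],
    Module.finrank ℝ V = D → ∀ (X Y : Type) [Fintype X] [Fintype Y] (w : X → ℝ) (v : Y → ℝ),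
    (∀ x, 0 ≤ w x) → (∀ y, 0 ≤ v y) → ∀ (u : X → V) (f : Y → V →ₗ[ℝ] ℝ),
    ∃ (S : Finset X) (P : Finset Y) (σ : SignType), δ * ∑ x, w x ≤ ∑ x ∈ S, w x ∧
      δ * ∑ y, v y ≤ ∑ y ∈ P, v y ∧ ∀ x ∈ S, ∀ y ∈ P, SignType.sign (f y (u x)) = σ := by
  obtain ⟨T, hT⟩ := hcells D (1/2) (by norm_num)
  have hT0 : (0 : ℝ) ≤ T := Nat.cast_nonneg T
  refine ⟨1 / (6 * (T + 1)), by positivity, ?_, ?_⟩
  · rw [div_le_one (by positivity)]; linarith
  intro V _ _ _ hV X Y _ _ w v hw hv u f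
  set δ : ℝ := 1 / (6 * (T + 1)) with hδ
  have hδ0 : 0 < δ := by positivity
  have hδ1 : δ ≤ 1 := by rw [hδ, div_le_one (by positivity)]; linarith
  obtain ⟨τ, R, hc, hcr⟩ := hT V hV X w hw u
  set W := ∑ x, w x with hW
  set U := ∑ y, v y with hU
  have hW0 : 0 ≤ W := Finset.sum_nonneg fun x _ => hw x
  have hU0 : 0 ≤ U := Finset.sum_nonneg fun x _ => hv x
  rcases hW0.eq_or_lt with hW0' | hWpos
  · refine ⟨∅, Finset.univ, 0, by rw [← hW0']; simp, ?_, by simp⟩
    rw [← hU]; nlinarith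
  rcases hU0.eq_or_lt with hU0' | hUpos
  · refine ⟨Finset.univ, ∅, 0, ?_, by rw [← hU0']; simp, by simp⟩
    rw [← hW]; nlinarith
  -- class weights
  set Wk : Fin T → ℝ := fun k => ∑ x with τ x = k, w x with hWk
  set Uk : Fin T → ℝ := fun k => ∑ y with ¬ Crosses (f y) (R k), v y with hUk
  have hsum : W * U / 2 ≤ ∑ k, Wk k * Uk k := by
    have h1 : ∑ k, Wk k * Uk k = ∑ y, v y * ∑ x with ¬ Crosses (f y) (R (τ x)), w x := by
      have e1 : ∑ k, Wk k * Uk k =
          ∑ x, ∑ y, (if ¬ Crosses (f y) (R (τ x)) then w x * v y else 0) := by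
        rw [← Finset.sum_fiberwise Finset.univ τ
          (fun x => ∑ y, (if ¬ Crosses (f y) (R (τ x)) then w x * v y else 0))]
        apply Finset.sum_congr rfl
        intro k _
        simp only [hWk]
        rw [Finset.sum_mul]
        apply Finset.sum_congr rfl
        intro x hx
        have hx' : τ x = k := by simpa using hx
        simp only [hUk, hx']
        rw [Finset.mul_sum, Finset.sum_filter]
      rw [e1, Finset.sum_comm]
      apply Finset.sum_congr rfl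
      intro y _
      rw [Finset.mul_sum, Finset.sum_filter]
      apply Finset.sum_congr rfl
      intro x _
      split_ifs
      · rfl
      · ring
    rw [h1]
    have h2 : ∀ y, W / 2 ≤ ∑ x with ¬ Crosses (f y) (R (τ x)), w x := by
      intro y
      have := hcr (f y)
      have h3 := Finset.sum_filter_add_sum_filter_not Finset.univ
        (fun x => Crosses (f y) (R (τ x))) w
      rw [← hW] at h3
      linarith
    calc W * U / 2 = ∑ y, v y * (W / 2) := by rw [← Finset.sum_mul, ← hU]; ring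
      _ ≤ _ := Finset.sum_le_sum fun y _ => mul_le_mul_of_nonneg_left (h2 y) (hv y)
  have hex : ∃ k, W * U / (2 * (T + 1)) ≤ Wk k * Uk k := by
    by_contra hcon
    push Not at hcon
    have h1 : ∑ k, Wk k * Uk k ≤ ∑ k : Fin T, W * U / (2 * (T + 1)) :=
      Finset.sum_le_sum fun k _ => (hcon k).le
    rw [Finset.sum_const, Finset.card_univ, Fintype.card_fin, nsmul_eq_mul] at h1
    have h2 : (T : ℝ) * (W * U / (2 * (T + 1))) < W * U / 2 := by
      rw [mul_div_assoc', div_lt_div_iff₀ (by positivity) (by norm_num)]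
      have : 0 < W * U := by positivity
      nlinarith
    linarith
  obtain ⟨k, hk⟩ := hex
  have hWk1 : Wk k ≤ W :=
    Finset.sum_le_sum_of_subset_of_nonneg (Finset.filter_subset _ _) (fun x _ _ => hw x)
  have hUk1 : Uk k ≤ U :=
    Finset.sum_le_sum_of_subset_of_nonneg (Finset.filter_subset _ _) (fun x _ _ => hv x)
  have hWk0 : 0 ≤ Wk k := Finset.sum_nonneg fun x _ => hw x
  have hUk0 : 0 ≤ Uk k := Finset.sum_nonneg fun x _ => hv x
  have hWk2 : W / (2 * (T + 1)) ≤ Wk k := by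
    have h1 : Wk k * Uk k ≤ Wk k * U := mul_le_mul_of_nonneg_left hUk1 hWk0
    have h2 : W / (2 * (T + 1)) * U ≤ Wk k * U := by
      calc W / (2 * (T + 1)) * U = W * U / (2 * (T + 1)) := by ring
        _ ≤ _ := hk.trans h1
    exact le_of_mul_le_mul_right h2 hUpos
  have hUk2 : U / (2 * (T + 1)) ≤ Uk k := by
    have h1 : Wk k * Uk k ≤ W * Uk k := mul_le_mul_of_nonneg_right hWk1 hUk0
    have h2 : W * (U / (2 * (T + 1))) ≤ W * Uk k := by
      calc W * (U / (2 * (T + 1))) = W * U / (2 * (T + 1)) := by ring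
        _ ≤ _ := hk.trans h1
    exact le_of_mul_le_mul_left h2 hWpos
  -- most popular sign
  set s : Y → SignType := fun y => SignType.sign (∑ i, f y (R k i)) with hs
  have hpop : ∃ σ : SignType, Uk k / 3 ≤ ∑ y with (¬ Crosses (f y) (R k)) ∧ s y = σ, v y := by
    by_contra hcon
    push Not at hcon
    have h1 : Uk k = ∑ σ : SignType, ∑ y with (¬ Crosses (f y) (R k)) ∧ s y = σ, v y := by
      rw [hUk]
      simp only
      rw [← Finset.sum_fiberwise (s := Finset.filter (fun y => ¬ Crosses (f y) (R k)) Finset.univ)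
        (g := s)]
      apply Finset.sum_congr rfl
      intro σ _
      rw [Finset.filter_filter]
    have h2 : ∑ σ : SignType, ∑ y with (¬ Crosses (f y) (R k)) ∧ s y = σ, v y
        < ∑ σ : SignType, Uk k / 3 :=
      Finset.sum_lt_sum_of_nonempty ⟨0, Finset.mem_univ _⟩ fun σ _ => hcon σ
    rw [Finset.sum_const, Finset.card_univ, show Fintype.card SignType = 3 from rfl,
      nsmul_eq_mul] at h2
    push_cast at h2
    linarith
  obtain ⟨σ, hσ⟩ := hpop
  refine ⟨Finset.univ.filter (fun x => τ x = k),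
    Finset.univ.filter (fun y => (¬ Crosses (f y) (R k)) ∧ s y = σ), σ, ?_, ?_, ?_⟩
  · refine le_trans ?_ hWk2
    rw [hδ, one_div, inv_mul_eq_div]
    apply div_le_div_of_nonneg_left hW0 (by positivity)
    nlinarith
  · refine le_trans ?_ hσ
    refine le_trans ?_ (div_le_div_of_nonneg_right hUk2 (by norm_num : (0:ℝ) ≤ 3))
    rw [hδ, one_div, inv_mul_eq_div, div_div]
    apply le_of_eq
    congr 1
    ring
  · intro x hx y hy
    simp only [Finset.mem_filter, Finset.mem_univ, true_and] at hx hy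
    rw [← hy.2, hs]
    apply nc_sign _ hy.1
    rw [← hx]
    exact hc x

/-- Strong Erdős–Hajnal property of finitely many bilinear signs. -/
lemma eh_many (hcells : CellsStmt) (D : ℕ) (κ : Type) [Fintype κ] : ∃ δ : ℝ, 0 < δ ∧ δ ≤ 1 ∧
    ∀ (V : Type) [AddCommGroup V] [Module ℝ V] [FiniteDimensional ℝ V],
    Module.finrank ℝ V = D → ∀ (X Y : Type) [Fintype X] [Fintype Y] (w : X → ℝ) (v : Y → ℝ),
    (∀ x, 0 ≤ w x) → (∀ y, 0 ≤ v y) → ∀ (u : κ → X → V) (f : κ → Y → V →ₗ[ℝ] ℝ),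
    ∃ (S : Finset X) (P : Finset Y) (σ : κ → SignType), δ * ∑ x, w x ≤ ∑ x ∈ S, w x ∧
      δ * ∑ y, v y ≤ ∑ y ∈ P, v y ∧
      ∀ k, ∀ x ∈ S, ∀ y ∈ P, SignType.sign (f k y (u k x)) = σ k := by
  obtain ⟨δ₁, hδ₁, hδ₁', h₁⟩ := eh_one hcells D
  suffices H : ∀ K : Finset κ, ∃ δ : ℝ, 0 < δ ∧ δ ≤ 1 ∧
      ∀ (V : Type) [AddCommGroup V] [Module ℝ V] [FiniteDimensional ℝ V],
      Module.finrank ℝ V = D → ∀ (X Y : Type) [Fintype X] [Fintype Y] (w : X → ℝ) (v : Y → ℝ),
      (∀ x, 0 ≤ w x) → (∀ y, 0 ≤ v y) → ∀ (u : κ → X → V) (f : κ → Y → V →ₗ[ℝ] ℝ),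
      ∃ (S : Finset X) (P : Finset Y) (σ : κ → SignType), δ * ∑ x, w x ≤ ∑ x ∈ S, w x ∧
        δ * ∑ y, v y ≤ ∑ y ∈ P, v y ∧
        ∀ k ∈ K, ∀ x ∈ S, ∀ y ∈ P, SignType.sign (f k y (u k x)) = σ k by
    obtain ⟨δ, h0, h1, h⟩ := H Finset.univ
    refine ⟨δ, h0, h1, ?_⟩
    intro V _ _ _ hV X Y _ _ w v hw hv u f
    obtain ⟨S, P, σ, hS, hP, hσ⟩ := h V hV X Y w v hw hv u f
    exact ⟨S, P, σ, hS, hP, fun k => hσ k (Finset.mem_univ _)⟩
  intro K
  induction K using Finset.induction_on with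
  | empty =>
    refine ⟨1, one_pos, le_rfl, ?_⟩
    intro V _ _ _ hV X Y _ _ w v hw hv u f
    exact ⟨Finset.univ, Finset.univ, fun _ => 0, by simp, by simp, by simp⟩
  | insert a K ha ih =>
    obtain ⟨δ, h0, h1, h⟩ := ih
    refine ⟨δ₁ * δ, mul_pos hδ₁ h0, by nlinarith, ?_⟩
    intro V _ _ _ hV X Y _ _ w v hw hv u f
    obtain ⟨S, P, σ, hS, hP, hσ⟩ := h V hV X Y w v hw hv u f
    obtain ⟨S', P', σ', hS', hP', hσ'⟩ := h₁ V hV X Y (fun x => if x ∈ S then w x else 0)
      (fun y => if y ∈ P then v y else 0)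
      (fun x => by split_ifs <;> [exact hw x; exact le_rfl])
      (fun y => by split_ifs <;> [exact hv y; exact le_rfl]) (u a) (f a)
    have e1 : ∑ x, (if x ∈ S then w x else 0) = ∑ x ∈ S, w x := by
      rw [← Finset.sum_filter]; congr 1; ext; simp
    have e2 : ∑ y, (if y ∈ P then v y else 0) = ∑ y ∈ P, v y := by
      rw [← Finset.sum_filter]; congr 1; ext; simp
    have e3 : ∑ x ∈ S', (if x ∈ S then w x else 0) = ∑ x ∈ S ∩ S', w x := by
      rw [← Finset.sum_filter]; congr 1; ext; simp [and_comm]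
    have e4 : ∑ y ∈ P', (if y ∈ P then v y else 0) = ∑ y ∈ P ∩ P', v y := by
      rw [← Finset.sum_filter]; congr 1; ext; simp [and_comm]
    rw [e1, e3] at hS'
    rw [e2, e4] at hP'
    refine ⟨S ∩ S', P ∩ P', fun k => if k = a then σ' else σ k, ?_, ?_, ?_⟩
    · rw [mul_assoc]
      exact (mul_le_mul_of_nonneg_left hS hδ₁.le).trans hS'
    · rw [mul_assoc]
      exact (mul_le_mul_of_nonneg_left hP hδ₁.le).trans hP'
    · intro k hk x hx y hy
      rw [Finset.mem_inter] at hx hy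
      by_cases hka : k = a
      · subst hka
        simp only [if_true]
        exact hσ' x hx.2 y hy.2
      · simp only [hka, if_false]
        rcases Finset.mem_insert.1 hk with h | h
        · exact absurd h hka
        · exact hσ k h x hx.1 y hy.1

end Pool.Agent.LinKnot.H11
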