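import Pool.Agent.Lib.MP_188a32_co_helper11.Trees

/-!
# Task B, part 3: `exists_homogeneous` from `cells`
-/

set_option autoImplicit false

namespace Pool.Agent.LinKnot.H11

open scoped Classical
open Pool.Agent.LinKnot

/-- homogeneous coordinates -/
def hatv (p : R3) : V4 := ![1, p 0, p 1, p 2]

/-- Laplace expansion of the determinant along the first two rows. -/
def DM (M : Fin 4 × Fin 4 → ℝ) (z w : V4) : ℝ :=
  (M (0, 1) - M (1, 0)) * (z 2 * w 3 - z 3 * w 2) - (M (0, 2) - M (2, 0)) * (z 1 * w 3 - z 3 * w 1)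
  + (M (0, 3) - M (3, 0)) * (z 1 * w 2 - z 2 * w 1) + (M (1, 2) - M (2, 1)) * (z 0 * w 3 - z 3 * w 0)
  - (M (1, 3) - M (3, 1)) * (z 0 * w 2 - z 2 * w 0) + (M (2, 3) - M (3, 2)) * (z 0 * w 1 - z 1 * w 0)

/-- The determinant of four vectors. -/
def D4 (x y z w : V4) : ℝ := DM (fun ij => x ij.1 * y ij.2) z w

lemma orient_eq (a b c d : R3) : orient a b c d = D4 (hatv a) (hatv b) (hatv c) (hatv d) := by
  simp only [orient, D4, DM, hatv]
  simp
  ring

lemma D4_swap (x y z w : V4) : D4 x y z w = - D4 x y w z := by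
  simp only [D4, DM]; ring

def linM (z w : V4) : (Fin 4 × Fin 4 → ℝ) →ₗ[ℝ] ℝ where
  toFun M := DM M z w
  map_add' M N := by simp only [DM, Pi.add_apply]; ring
  map_smul' c M := by simp only [DM, Pi.smul_apply, smul_eq_mul, RingHom.id_apply]; ring

def lin1 (y z w : V4) : V4 →ₗ[ℝ] ℝ where
  toFun x := D4 x y z w
  map_add' M N := by simp only [D4, DM, Pi.add_apply]; ring
  map_smul' c M := by simp only [D4, DM, Pi.smul_apply, smul_eq_mul, RingHom.id_apply]; ring

def lin2 (x z w : V4) : V4 →ₗ[ℝ] ℝ where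
  toFun y := D4 x y z w
  map_add' M N := by simp only [D4, DM, Pi.add_apply]; ring
  map_smul' c M := by simp only [D4, DM, Pi.smul_apply, smul_eq_mul, RingHom.id_apply]; ring

def lin3 (x y w : V4) : V4 →ₗ[ℝ] ℝ where
  toFun z := D4 x y z w
  map_add' M N := by simp only [D4, DM, Pi.add_apply]; ring
  map_smul' c M := by simp only [D4, DM, Pi.smul_apply, smul_eq_mul, RingHom.id_apply]; ring

def lin4 (x y z : V4) : V4 →ₗ[ℝ] ℝ where
  toFun w := D4 x y z w
  map_add' M N := by simp only [D4, DM, Pi.add_apply]; ring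
  map_smul' c M := by simp only [D4, DM, Pi.smul_apply, smul_eq_mul, RingHom.id_apply]; ring

/-- index of the 256 forms -/
abbrev K4 := Fin 4 × Fin 4 × Fin 4 × Fin 4

/-- the weight of the bad pairs is small -/
lemma bad_sum {X Y : Type} [Fintype X] [Fintype Y] {w : X → ℝ} {v : Y → ℝ} (hv : ∀ y, 0 ≤ v y)
    (κ : Type) [Fintype κ] (B : κ → X → Y → Prop) (B' : X → Y → Prop)
    [∀ x y, Decidable (B' x y)] (hB' : ∀ x y, B' x y → ∃ k, B k x y) (e t : ℝ)
    (hvt : ∑ y, v y = t)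
    (h : ∀ k y, ∑ x, (if B k x y then w x else 0) ≤ e * t) (hw : ∀ x, 0 ≤ w x) :
    ∑ x, ∑ y, (if B' x y then w x * v y else 0) ≤ (Fintype.card κ : ℝ) * e * t * t := by
  calc ∑ x, ∑ y, (if B' x y then w x * v y else 0)
      ≤ ∑ x, ∑ y, ∑ k, (if B k x y then w x * v y else 0) := by
        apply Finset.sum_le_sum; intro x _
        apply Finset.sum_le_sum; intro y _
        have hnn : ∀ k ∈ (Finset.univ : Finset κ), 0 ≤ (if B k x y then w x * v y else 0) := by
          intro k _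
          split_ifs
          · exact mul_nonneg (hw x) (hv y)
          · exact le_rfl
        split_ifs with hk
        · obtain ⟨k, hk⟩ := hB' x y hk
          calc w x * v y = (if B k x y then w x * v y else 0) := (if_pos hk).symm
            _ ≤ _ := Finset.single_le_sum (f := fun k => if B k x y then w x * v y else 0) hnn
              (Finset.mem_univ k)
        · exact Finset.sum_nonneg hnn
    _ = ∑ k, ∑ y, v y * ∑ x, (if B k x y then w x else 0) := by
        calc _ = ∑ x, ∑ k, ∑ y, (if B k x y then w x * v y else 0) := by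
              apply Finset.sum_congr rfl; intro x _
              exact Finset.sum_comm
          _ = ∑ k, ∑ x, ∑ y, (if B k x y then w x * v y else 0) := Finset.sum_comm
          _ = _ := by
              apply Finset.sum_congr rfl; intro k _
              rw [Finset.sum_comm]
              apply Finset.sum_congr rfl; intro y _
              rw [Finset.mul_sum]
              apply Finset.sum_congr rfl; intro x _
              split_ifs
              · ring
              · simp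
    _ ≤ ∑ k : κ, ∑ y, v y * (e * t) := by
        apply Finset.sum_le_sum; intro k _
        apply Finset.sum_le_sum; intro y _
        exact mul_le_mul_of_nonneg_left (h k y) (hv y)
    _ = _ := by
        simp only [← Finset.sum_mul, hvt, Finset.sum_const, Finset.card_univ, nsmul_eq_mul]
        ring

lemma combine {ι : Type} [Fintype ι] (hat : ι → V4)
    (hgen : ∀ i j k l : ι, i ≠ j → i ≠ k → i ≠ l → j ≠ k → j ≠ l → k ≠ l →
      D4 (hat i) (hat j) (hat k) (hat l) ≠ 0) (δ η : ℝ) (hδ : 0 < δ)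
    (hEH : ∀ (X Y : Type) [Fintype X] [Fintype Y] (w : X → ℝ) (v : Y → ℝ),
      (∀ x, 0 ≤ w x) → (∀ y, 0 ≤ v y) → ∀ (u : K4 → X → (Fin 4 × Fin 4 → ℝ))
      (f : K4 → Y → (Fin 4 × Fin 4 → ℝ) →ₗ[ℝ] ℝ),
      ∃ (S : Finset X) (P : Finset Y) (σ : K4 → SignType), δ * ∑ x, w x ≤ ∑ x ∈ S, w x ∧
        δ * ∑ y, v y ≤ ∑ y ∈ P, v y ∧
        ∀ k, ∀ x ∈ S, ∀ y ∈ P, SignType.sign (f k y (u k x)) = σ k)
    (hη : 85 * η < δ ^ 2) (A B : Finset ι) (hAB : Disjoint A B) (t : ℕ)
    (ht : 1 ≤ t) (P : Sys hat η A t) (Q : Sys hat η B t) :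
    ∃ (la lb : List ι) (s : ℝ), (s = 1 ∨ s = -1) ∧ (2 : ℝ) ^ (δ * t) ≤ la.length ∧
      (2 : ℝ) ^ (δ * t) ≤ lb.length ∧
      la.Pairwise (fun a a' => lb.Pairwise fun b b' =>
        0 < s * D4 (hat a) (hat a') (hat b) (hat b')) := by
  let _ : Fintype P.X := P.fX
  let _ : Fintype Q.X := Q.fX
  obtain ⟨S, U, σ, hS, hU, hσ⟩ := hEH P.X Q.X P.w Q.w P.w0 Q.w0
    (fun k x ij => P.R x k.1 ij.1 * P.R' x k.2.1 ij.2)
    (fun k y => linM (Q.R y k.2.2.1) (Q.R' y k.2.2.2))
  rw [P.wt] at hS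
  rw [Q.wt] at hU
  -- bad events
  let B1 : P.X → Q.X → Prop := fun x y => ∃ _k : Unit,
    Crosses (lin1 (hat (P.a' x)) (hat (Q.a y)) (hat (Q.a' y))) (P.R x)
  let B2 : P.X → Q.X → Prop := fun x y => ∃ p : Fin 4,
    Crosses (lin2 (P.R x p) (hat (Q.a y)) (hat (Q.a' y))) (P.R' x)
  let B3 : P.X → Q.X → Prop := fun x y => ∃ p : Fin 4 × Fin 4,
    Crosses (lin3 (P.R x p.1) (P.R' x p.2) (hat (Q.a' y))) (Q.R y)
  let B4 : P.X → Q.X → Prop := fun x y => ∃ p : Fin 4 × Fin 4 × Fin 4,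
    Crosses (lin4 (P.R x p.1) (P.R' x p.2.1) (Q.R y p.2.2)) (Q.R' y)
  have htR : (1 : ℝ) ≤ t := by exact_mod_cast ht
  have b1 : ∑ x, ∑ y, (if B1 x y then P.w x * Q.w y else 0) ≤ 1 * η * t * t := by
    have := bad_sum (w := P.w) (v := Q.w) Q.w0 Unit (fun _ x y =>
      Crosses (lin1 (hat (P.a' x)) (hat (Q.a y)) (hat (Q.a' y))) (P.R x)) B1
      (fun x y h => h) η t Q.wt
      (fun _ y => P.M1 (fun i => lin1 (hat i) (hat (Q.a y)) (hat (Q.a' y)))) P.w0
    refine this.trans (le_of_eq ?_)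
    simp
  have b2 : ∑ x, ∑ y, (if B2 x y then P.w x * Q.w y else 0) ≤ 4 * η * t * t := by
    have := bad_sum (w := P.w) (v := Q.w) Q.w0 (Fin 4) (fun p x y =>
      Crosses (lin2 (P.R x p) (hat (Q.a y)) (hat (Q.a' y))) (P.R' x)) B2
      (fun x y h => h) η t Q.wt
      (fun p y => P.M2 (fun R => lin2 (R p) (hat (Q.a y)) (hat (Q.a' y)))) P.w0
    refine this.trans (le_of_eq ?_)
    simp
  have b3 : ∑ x, ∑ y, (if B3 x y then P.w x * Q.w y else 0) ≤ 16 * η * t * t := by
    have := bad_sum (w := Q.w) (v := P.w) P.w0 (Fin 4 × Fin 4) (fun p y x =>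
      Crosses (lin3 (P.R x p.1) (P.R' x p.2) (hat (Q.a' y))) (Q.R y)) (fun y x => B3 x y)
      (fun y x h => h) η t P.wt
      (fun p x => Q.M1 (fun i => lin3 (P.R x p.1) (P.R' x p.2) (hat i))) Q.w0
    rw [Finset.sum_comm] at this
    have hc : (Fintype.card (Fin 4 × Fin 4) : ℝ) = 16 := by simp
    rw [hc] at this
    refine le_trans (le_of_eq ?_) this
    apply Finset.sum_congr rfl; intro x _
    apply Finset.sum_congr rfl; intro y _
    rw [mul_comm]
  have b4 : ∑ x, ∑ y, (if B4 x y then P.w x * Q.w y else 0) ≤ 64 * η * t * t := by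
    have := bad_sum (w := Q.w) (v := P.w) P.w0 (Fin 4 × Fin 4 × Fin 4) (fun p y x =>
      Crosses (lin4 (P.R x p.1) (P.R' x p.2.1) (Q.R y p.2.2)) (Q.R' y)) (fun y x => B4 x y)
      (fun y x h => h) η t P.wt
      (fun p x => Q.M2 (fun R => lin4 (P.R x p.1) (P.R' x p.2.1) (R p.2.2))) Q.w0
    rw [Finset.sum_comm] at this
    have hc : (Fintype.card (Fin 4 × Fin 4 × Fin 4) : ℝ) = 64 := by simp
    rw [hc] at this
    refine le_trans (le_of_eq ?_) this
    apply Finset.sum_congr rfl; intro x _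
    apply Finset.sum_congr rfl; intro y _
    rw [mul_comm]
  -- a good pair
  obtain ⟨x, hx, y, hy, hwx, hwy, hb1, hb2, hb3, hb4⟩ : ∃ x ∈ S, ∃ y ∈ U, P.w x ≠ 0 ∧ Q.w y ≠ 0 ∧
      ¬ B1 x y ∧ ¬ B2 x y ∧ ¬ B3 x y ∧ ¬ B4 x y := by
    by_contra hcon
    push Not at hcon
    have h1 : ∑ x ∈ S, ∑ y ∈ U, P.w x * Q.w y ≤
        ∑ x, ∑ y, ((if B1 x y then P.w x * Q.w y else 0) + (if B2 x y then P.w x * Q.w y else 0)
          + (if B3 x y then P.w x * Q.w y else 0) + (if B4 x y then P.w x * Q.w y else 0)) := by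
      have hnn : ∀ x y, 0 ≤ ((if B1 x y then P.w x * Q.w y else 0) +
          (if B2 x y then P.w x * Q.w y else 0)
          + (if B3 x y then P.w x * Q.w y else 0) + (if B4 x y then P.w x * Q.w y else 0)) := by
        intro x y
        have := mul_nonneg (P.w0 x) (Q.w0 y)
        split_ifs <;> linarith
      calc ∑ x ∈ S, ∑ y ∈ U, P.w x * Q.w y
          ≤ ∑ x ∈ S, ∑ y ∈ U, ((if B1 x y then P.w x * Q.w y else 0) +
            (if B2 x y then P.w x * Q.w y else 0)
            + (if B3 x y then P.w x * Q.w y else 0) + (if B4 x y then P.w x * Q.w y else 0)) := by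
            apply Finset.sum_le_sum; intro x hx
            apply Finset.sum_le_sum; intro y hy
            have h0 := mul_nonneg (P.w0 x) (Q.w0 y)
            by_cases hwx : P.w x = 0
            · rw [hwx]; simp
            by_cases hwy : Q.w y = 0
            · rw [hwy]; simp
            by_cases c1 : B1 x y
            · rw [if_pos c1]; split_ifs <;> linarith
            by_cases c2 : B2 x y
            · rw [if_pos c2]; split_ifs <;> linarith
            by_cases c3 : B3 x y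
            · rw [if_pos c3]; split_ifs <;> linarith
            have c4 := hcon x hx y hy hwx hwy c1 c2 c3
            rw [if_pos c4]; split_ifs <;> linarith
        _ ≤ ∑ x ∈ S, ∑ y, ((if B1 x y then P.w x * Q.w y else 0) +
            (if B2 x y then P.w x * Q.w y else 0)
            + (if B3 x y then P.w x * Q.w y else 0) + (if B4 x y then P.w x * Q.w y else 0)) := by
            apply Finset.sum_le_sum; intro x _
            exact Finset.sum_le_sum_of_subset_of_nonneg (Finset.subset_univ _)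
              (fun y _ _ => hnn x y)
        _ ≤ _ := Finset.sum_le_sum_of_subset_of_nonneg (Finset.subset_univ _)
              (fun x _ _ => Finset.sum_nonneg fun y _ => hnn x y)
    have h2 : ∑ x, ∑ y, ((if B1 x y then P.w x * Q.w y else 0) +
          (if B2 x y then P.w x * Q.w y else 0)
          + (if B3 x y then P.w x * Q.w y else 0) + (if B4 x y then P.w x * Q.w y else 0))
        ≤ 85 * η * t * t := by
      simp only [Finset.sum_add_distrib]
      linarith
    have h3 : δ * t * (δ * t) ≤ ∑ x ∈ S, ∑ y ∈ U, P.w x * Q.w y := by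
      rw [← Finset.sum_mul_sum]
      exact mul_le_mul hS hU (by positivity) (Finset.sum_nonneg fun x _ => P.w0 x)
    have h4 : δ * t * (δ * t) ≤ 85 * η * t * t := h3.trans (h1.trans h2)
    have h5 : 85 * η * t * t < δ ^ 2 * t * t := by
      have : (0 : ℝ) < t * t := by nlinarith
      nlinarith
    nlinarith
  -- the sign
  have hPa := P.aA x
  have hPa' := P.a'A x
  have hQa := Q.aA y
  have hQa' := Q.a'A y
  have hdis : ∀ a ∈ A, ∀ b ∈ B, a ≠ b := fun a ha b hb h =>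
    Finset.disjoint_left.1 hAB ha (h ▸ hb)
  have hne : D4 (hat (P.a x)) (hat (P.a' x)) (hat (Q.a y)) (hat (Q.a' y)) ≠ 0 :=
    hgen _ _ _ _ (P.ne x hwx) (hdis _ hPa _ hQa) (hdis _ hPa _ hQa') (hdis _ hPa' _ hQa)
      (hdis _ hPa' _ hQa') (Q.ne y hwy)
  obtain ⟨s, hs, hspos⟩ : ∃ s : ℝ, (s = 1 ∨ s = -1) ∧
      0 < s * D4 (hat (P.a x)) (hat (P.a' x)) (hat (Q.a y)) (hat (Q.a' y)) := by
    rcases lt_or_gt_of_ne hne with h | h
    · exact ⟨-1, Or.inr rfl, by linarith⟩
    · exact ⟨1, Or.inl rfl, by linarith⟩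
  have n1 : ∀ p, 0 ≤ s * D4 (P.R x p) (hat (P.a' x)) (hat (Q.a y)) (hat (Q.a' y)) :=
    nc_nonneg' (P.hR x) (f := lin1 (hat (P.a' x)) (hat (Q.a y)) (hat (Q.a' y))) hs
      (fun h => hb1 ⟨(), h⟩) hspos.le
  have n2 : ∀ p q, 0 ≤ s * D4 (P.R x p) (P.R' x q) (hat (Q.a y)) (hat (Q.a' y)) := fun p =>
    nc_nonneg' (P.hR' x) (f := lin2 (P.R x p) (hat (Q.a y)) (hat (Q.a' y))) hs
      (fun h => hb2 ⟨p, h⟩) (n1 p)
  have n3 : ∀ p q r, 0 ≤ s * D4 (P.R x p) (P.R' x q) (Q.R y r) (hat (Q.a' y)) := fun p q =>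
    nc_nonneg' (Q.hR y) (f := lin3 (P.R x p) (P.R' x q) (hat (Q.a' y))) hs
      (fun h => hb3 ⟨(p, q), h⟩) (n2 p q)
  have n4 : ∀ p q r u, 0 ≤ s * D4 (P.R x p) (P.R' x q) (Q.R y r) (Q.R' y u) := fun p q r =>
    nc_nonneg' (Q.hR' y) (f := lin4 (P.R x p) (P.R' x q) (Q.R y r)) hs
      (fun h => hb4 ⟨(p, q, r), h⟩) (n3 p q r)
  -- transfer to all pairs
  have n5 : ∀ x' ∈ S, ∀ y' ∈ U, ∀ p q r u,
      0 ≤ s * D4 (P.R x' p) (P.R' x' q) (Q.R y' r) (Q.R' y' u) := by
    intro x' hx' y' hy' p q r u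
    have e1 := hσ (p, q, r, u) x hx y hy
    have e2 := hσ (p, q, r, u) x' hx' y' hy'
    have e3 : SignType.sign (D4 (P.R x' p) (P.R' x' q) (Q.R y' r) (Q.R' y' u)) =
        SignType.sign (D4 (P.R x p) (P.R' x q) (Q.R y r) (Q.R' y u)) := e2.trans e1.symm
    have e4 := n4 p q r u
    rcases hs with rfl | rfl
    · rw [one_mul] at e4 ⊢
      rw [← sign_nonneg_iff] at e4 ⊢
      rw [e3]; exact e4
    · have e5 : D4 (P.R x p) (P.R' x q) (Q.R y r) (Q.R' y u) ≤ 0 := by linarith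
      rw [← sign_nonpos_iff, ← e3, sign_nonpos_iff] at e5
      linarith
  have n6 : ∀ a a' b b' : ι, (∃ x ∈ S, PosComb (hat a) (P.R x) ∧ PosComb (hat a') (P.R' x)) →
      (∃ y ∈ U, PosComb (hat b) (Q.R y) ∧ PosComb (hat b') (Q.R' y)) →
      0 ≤ s * D4 (hat a) (hat a') (hat b) (hat b') := by
    rintro a a' b b' ⟨x', hx', ha, ha'⟩ ⟨y', hy', hb, hb'⟩
    refine posComb_nonneg ha (f := lin1 (hat a') (hat b) (hat b')) (s := s) fun p => ?_
    refine posComb_nonneg ha' (f := lin2 (P.R x' p) (hat b) (hat b')) (s := s) fun q => ?_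
    refine posComb_nonneg hb (f := lin3 (P.R x' p) (P.R' x' q) (hat b')) (s := s) fun r => ?_
    refine posComb_nonneg hb' (f := lin4 (P.R x' p) (P.R' x' q) (Q.R y' r)) (s := s) fun u => ?_
    exact n5 x' hx' y' hy' p q r u
  obtain ⟨la, ha1, ha2, ha3, ha4⟩ := P.ext S
  obtain ⟨lb, hb1', hb2', hb3', hb4'⟩ := Q.ext U
  refine ⟨la, lb, s, hs, ?_, ?_, ?_⟩
  · exact (Real.rpow_le_rpow_of_exponent_le (by norm_num) hS).trans ha1
  · exact (Real.rpow_le_rpow_of_exponent_le (by norm_num) hU).trans hb1'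
  · have hA := List.Pairwise.and_mem.1 ((List.nodup_iff_pairwise_ne.1 ha3).and ha4)
    have hB := List.Pairwise.and_mem.1 ((List.nodup_iff_pairwise_ne.1 hb3').and hb4')
    refine hA.imp ?_
    rintro a a' ⟨haA, haA', hne1, h1⟩
    refine hB.imp ?_
    rintro b b' ⟨hbB, hbB', hne2, h2⟩
    have h3 := n6 a a' b b' h1 h2
    have h4 : D4 (hat a) (hat a') (hat b) (hat b') ≠ 0 :=
      hgen _ _ _ _ hne1 (hdis _ (ha2 a haA) _ (hb2' b hbB)) (hdis _ (ha2 a haA) _ (hb2' b' hbB'))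
        (hdis _ (ha2 a' haA') _ (hb2' b hbB)) (hdis _ (ha2 a' haA') _ (hb2' b' hbB')) hne2
    have h5 : s * D4 (hat a) (hat a') (hat b) (hat b') ≠ 0 :=
      mul_ne_zero (by rcases hs with rfl | rfl <;> norm_num) h4
    exact lt_of_le_of_ne h3 h5.symm

/-- **Task B.** -/
theorem exists_homogeneous_of_cells (hcells : CellsStmt) :
    ∃ C d : ℕ, ∀ m n : ℕ, 1 ≤ m → C * m ^ d ≤ n → ∀ p : Fin n → R3,
    (∀ i j k l : Fin n, i ≠ j → i ≠ k → i ≠ l → j ≠ k → j ≠ l → k ≠ l →
      orient (p i) (p j) (p k) (p l) ≠ 0) →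
    ∃ a b : Fin m → Fin n, ∀ i j k l : Fin m, i < j → k < l →
      0 < orient (p (a i)) (p (a j)) (p (b k)) (p (b l)) := by
  obtain ⟨δ, hδ0, hδ1, hEH⟩ := eh_many hcells 16 K4
  obtain ⟨K, hK, hsys⟩ := exists_sys hcells (δ ^ 2 / 170) (by positivity)
  obtain ⟨q, hq⟩ := exists_nat_gt (1 / δ)
  have hq0 : (0 : ℝ) < q := lt_trans (by positivity) hq
  have hδq : 1 ≤ δ * q := by
    rw [div_lt_iff₀ hδ0] at hq
    linarith
  -- `K ≤ 2 ^ K`
  refine ⟨2 * 4 ^ (K * q), K * q, ?_⟩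
  intro m n hm hn p hp
  set t := q * (Nat.clog 2 m + 1) with ht
  have hqN : 1 ≤ q := by exact_mod_cast hq0
  have ht1 : 1 ≤ t := Nat.mul_pos hqN (by omega)
  have hclog : 2 ^ (Nat.clog 2 m + 1) ≤ 4 * m := by
    rcases Nat.lt_or_ge 1 m with h | h
    · have h1 := Nat.pow_pred_clog_lt_self (b := 2) (by norm_num) h
      have h2 : 1 ≤ Nat.clog 2 m := Nat.clog_pos (by norm_num) h
      obtain ⟨r, hr⟩ : ∃ r, Nat.clog 2 m = r + 1 := ⟨Nat.clog 2 m - 1, by omega⟩
      rw [hr] at h1 ⊢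
      simp only [Nat.pred_succ] at h1
      have : 2 ^ (r + 1 + 1) = 4 * 2 ^ r := by ring
      omega
    · have : m = 1 := by omega
      subst this
      simp
  have hKt : 2 * K ^ t ≤ n := by
    refine le_trans ?_ hn
    rw [mul_assoc, ← mul_pow]
    apply Nat.mul_le_mul_left
    calc K ^ t ≤ (2 ^ K) ^ t := Nat.pow_le_pow_left (Nat.lt_two_pow_self).le _
      _ = (2 ^ (Nat.clog 2 m + 1)) ^ (K * q) := by
          rw [← pow_mul, ← pow_mul, ht]; congr 1; ring
      _ ≤ (4 * m) ^ (K * q) := Nat.pow_le_pow_left hclog _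
  -- split the points
  obtain ⟨A, _, hA⟩ := Finset.exists_subset_card_eq (s := (Finset.univ : Finset (Fin n)))
    (n := K ^ t) (by rw [Finset.card_univ, Fintype.card_fin]; omega)
  have hB : K ^ t ≤ (Finset.univ \ A).card := by
    rw [Finset.card_sdiff_of_subset (Finset.subset_univ _), Finset.card_univ, Fintype.card_fin, hA]
    omega
  obtain ⟨P⟩ := hsys (Fin n) (fun i => hatv (p i)) t A hA.ge
  obtain ⟨Q⟩ := hsys (Fin n) (fun i => hatv (p i)) t (Finset.univ \ A) hB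
  obtain ⟨la, lb, s, hs, hla, hlb, hpw⟩ := combine (fun i => hatv (p i))
    (fun i j k l h1 h2 h3 h4 h5 h6 => by
      rw [← orient_eq]; exact hp i j k l h1 h2 h3 h4 h5 h6) δ (δ ^ 2 / 170) hδ0
    (fun X Y _ _ w v hw hv u f => hEH (Fin 4 × Fin 4 → ℝ) (by simp) X Y w v hw hv u f)
    (by nlinarith [sq_nonneg δ, pow_pos hδ0 2]) A (Finset.univ \ A) Finset.disjoint_sdiff t ht1 P Q
  have hmt : (m : ℝ) ≤ (2 : ℝ) ^ (δ * t) := by
    have h1 : (m : ℝ) ≤ (2 : ℝ) ^ ((Nat.clog 2 m : ℕ) : ℝ) := by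
      rw [Real.rpow_natCast]
      exact_mod_cast Nat.le_pow_clog (by norm_num) m
    refine h1.trans (Real.rpow_le_rpow_of_exponent_le (by norm_num) ?_)
    rw [ht]
    push_cast
    have h2 : (0 : ℝ) ≤ Nat.clog 2 m := Nat.cast_nonneg _
    calc (Nat.clog 2 m : ℝ) ≤ 1 * (Nat.clog 2 m + 1) := by linarith
      _ ≤ δ * q * (Nat.clog 2 m + 1) := mul_le_mul_of_nonneg_right hδq (by linarith)
      _ = _ := by ring
  have hla' : m ≤ la.length := by exact_mod_cast hmt.trans hla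
  have hlb' : m ≤ lb.length := by exact_mod_cast hmt.trans hlb
  have key : ∀ (i j k l : ℕ) (hj : j < la.length) (hl : l < lb.length) (hij : i < j) (hkl : k < l),
      0 < s * orient (p (la[i]'(hij.trans hj))) (p la[j]) (p (lb[k]'(hkl.trans hl))) (p lb[l]) := by
    intro i j k l hj hl hij hkl
    rw [orient_eq]
    exact List.pairwise_iff_getElem.1 (List.pairwise_iff_getElem.1 hpw i j (hij.trans hj) hj hij)
      k l (hkl.trans hl) hl hkl
  rcases hs with rfl | rfl
  · refine ⟨fun i => la[i.1]'(by omega), fun i => lb[i.1]'(by omega), ?_⟩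
    intro i j k l hij hkl
    have := key i j k l (by omega) (by omega) hij hkl
    simpa using this
  · refine ⟨fun i => la[i.1]'(by omega), fun i => lb[m - 1 - i.1]'(by omega), ?_⟩
    intro i j k l hij hkl
    have := key i j (m - 1 - l) (m - 1 - k) (by omega) (by omega) hij (by omega)
    rw [orient_eq, D4_swap, ← orient_eq] at this
    simpa using this

end Pool.Agent.LinKnot.H11
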