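import Pool.Agent.Lib.MP_188a32_co_helper11.EH

/-!
# Task B, part 2: groups and trees
-/

set_option autoImplicit false

namespace Pool.Agent.LinKnot.H11

open scoped Classical
open Pool.Agent.LinKnot

/-- the space `ℝ⁴` -/
abbrev V4 := Fin 4 → ℝ

/-- choose `g` disjoint monochromatic groups of size `s` -/
lemma exists_groups {ι : Type} {T : ℕ} (τ : ι → Fin T) (s : ℕ) (hs : 1 ≤ s) :
    ∀ (g : ℕ) (A : Finset ι), (g + T) * s ≤ A.card →
    ∃ (G : Fin g → Finset ι) (κ : Fin g → Fin T), (∀ i, G i ⊆ A) ∧ (∀ i, (G i).card = s) ∧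
      (∀ i j, i ≠ j → Disjoint (G i) (G j)) ∧ ∀ i, ∀ a ∈ G i, τ a = κ i := by
  intro g
  induction g with
  | zero =>
    intro A _
    exact ⟨fun i => i.elim0, fun i => i.elim0, fun i => i.elim0, fun i => i.elim0,
      fun i => i.elim0, fun i => i.elim0⟩
  | succ g ih =>
    intro A hA
    have hA0 : A.Nonempty := by
      rw [← Finset.card_pos]
      have : 1 * 1 ≤ (g + 1 + T) * s := Nat.mul_le_mul (by omega) hs
      omega
    obtain ⟨a₀, _⟩ := hA0
    have hT : T * s ≤ A.card := le_trans (Nat.mul_le_mul_right _ (by omega)) hA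
    obtain ⟨k, _, hk⟩ := Finset.exists_le_card_fiber_of_mul_le_card_of_maps_to
      (s := A) (t := Finset.univ) (f := τ) (n := s) (fun a _ => Finset.mem_univ _)
      ⟨τ a₀, Finset.mem_univ _⟩ (by simpa using hT)
    obtain ⟨G₀, hG₀, hc⟩ := Finset.exists_subset_card_eq hk
    have hG₀A : G₀ ⊆ A := hG₀.trans (Finset.filter_subset _ _)
    obtain ⟨G, κ, h1, h2, h3, h4⟩ := ih (A \ G₀) (by
      rw [Finset.card_sdiff_of_subset hG₀A, hc]
      have : (g + 1 + T) * s = (g + T) * s + s := by ring
      omega)
    refine ⟨Fin.cons G₀ G, Fin.cons k κ, ?_, ?_, ?_, ?_⟩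
    · intro i
      refine Fin.cases ?_ ?_ i
      · simpa using hG₀A
      · intro i; simpa using (h1 i).trans Finset.sdiff_subset
    · intro i
      refine Fin.cases ?_ ?_ i
      · simpa using hc
      · intro i; simpa using h2 i
    · intro i j
      refine Fin.cases ?_ ?_ i
      · refine Fin.cases ?_ ?_ j
        · intro h; exact absurd rfl h
        · intro j _
          simp only [Fin.cons_zero, Fin.cons_succ]
          exact (Finset.disjoint_of_subset_left (h1 j) Finset.sdiff_disjoint).symm
      · intro i
        refine Fin.cases ?_ ?_ j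
        · intro _
          simp only [Fin.cons_zero, Fin.cons_succ]
          exact Finset.disjoint_of_subset_left (h1 i) Finset.sdiff_disjoint
        · intro j hij
          simp only [Fin.cons_succ]
          exact h3 i j (fun h => hij (by rw [h]))
    · intro i
      refine Fin.cases ?_ ?_ i
      · intro a ha
        simp only [Fin.cons_zero] at ha ⊢
        exact (Finset.mem_filter.1 (hG₀ ha)).2
      · intro i a ha
        simp only [Fin.cons_succ] at ha ⊢
        exact h4 i a ha

/-- B1: groups such that every linear form crosses few of the generating systems. -/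
lemma groups (hcells : CellsStmt) (η : ℝ) (hη : 0 < η) : ∃ g K : ℕ, 2 ≤ g ∧ 1 ≤ K ∧
    ∀ (ι : Type) [Fintype ι] (hat : ι → V4) (A : Finset ι) (N : ℕ), 1 ≤ N → K * N ≤ A.card →
    ∃ (G : Fin g → Finset ι) (R : Fin g → Fin 4 → V4), (∀ i, G i ⊆ A) ∧
      (∀ i, N ≤ (G i).card) ∧ (∀ i j, i ≠ j → Disjoint (G i) (G j)) ∧
      (∀ i, ∀ a ∈ G i, PosComb (hat a) (R i)) ∧
      ∀ f : V4 →ₗ[ℝ] ℝ, ((Finset.univ.filter fun i => Crosses f (R i)).card : ℝ) ≤ η * g := by
  obtain ⟨T, hT⟩ := hcells 4 (η / 4) (by positivity)
  refine ⟨T + 4, 2 * (2 * T + 4), by omega, by omega, ?_⟩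
  intro ι _ hat A N hN hA
  obtain ⟨τ, R, hc, hcr⟩ := hT V4 (by simp) ι (fun i => if i ∈ A then 1 else 0)
    (fun i => by split_ifs <;> norm_num) hat
  set C := 2 * T + 4 with hC
  set s := A.card / C with hs
  have hCpos : 0 < C := by omega
  have hs1 : 2 * N ≤ s := by
    rw [hs, Nat.le_div_iff_mul_le hCpos]
    calc 2 * N * C = 2 * C * N := by ring
      _ ≤ _ := hA
  have hs2 : C * s ≤ A.card := Nat.mul_div_le _ _
  have hs3 : A.card ≤ C * s + C := by
    have := Nat.lt_mul_div_succ A.card hCpos
    rw [← hs] at this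
    have h2 : C * (s + 1) = C * s + C := by ring
    omega
  obtain ⟨G, κ, h1, h2, h3, h4⟩ := exists_groups τ s (by omega) (T + 4) A (by
    calc (T + 4 + T) * s = C * s := by rw [hC]; ring
      _ ≤ _ := hs2)
  refine ⟨G, fun i => R (κ i), h1, fun i => by rw [h2]; omega, h3, ?_, ?_⟩
  · intro i a ha
    have := hc a
    rw [h4 i a ha] at this
    exact this
  · intro f
    have hf := hcr f
    have e1 : ∑ x : ι, (if x ∈ A then (1 : ℝ) else 0) = A.card := by
      rw [Finset.sum_ite_mem]; simp
    have e2 : ∑ x with Crosses f (R (τ x)), (if x ∈ A then (1 : ℝ) else 0) =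
        (A.filter fun x => Crosses f (R (τ x))).card := by
      rw [← Finset.sum_filter, Finset.filter_filter, Finset.sum_const, nsmul_eq_mul, mul_one]
      congr 2
      ext x
      simp [and_comm]
    rw [e1, e2] at hf
    have h5 : (Finset.univ.filter fun i => Crosses f (R (κ i))).card * s ≤
        (A.filter fun x => Crosses f (R (τ x))).card := by
      calc (Finset.univ.filter fun i => Crosses f (R (κ i))).card * s
          = ((Finset.univ.filter fun i => Crosses f (R (κ i))).biUnion G).card := by
            rw [Finset.card_biUnion]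
            · rw [Finset.sum_congr rfl (fun i _ => h2 i), Finset.sum_const, smul_eq_mul]
            · intro i _ j _ hij
              exact h3 i j hij
        _ ≤ _ := by
            apply Finset.card_le_card
            intro a ha
            rw [Finset.mem_biUnion] at ha
            obtain ⟨i, hi, hai⟩ := ha
            rw [Finset.mem_filter] at hi ⊢
            refine ⟨h1 i hai, ?_⟩
            rw [h4 i a hai]
            exact hi.2
    have h5' : ((Finset.univ.filter fun i => Crosses f (R (κ i))).card : ℝ) * s ≤
        η / 4 * A.card := le_trans (by exact_mod_cast h5) hf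
    have h6 : (A.card : ℝ) ≤ 2 * C * s := by
      have : A.card ≤ 2 * C * s := by
        have : C ≤ C * s := Nat.le_mul_of_pos_right _ (by omega)
        have h7 : 2 * C * s = C * s + C * s := by ring
        omega
      exact_mod_cast this
    have hspos : (0 : ℝ) < s := by
      have : 0 < s := by omega
      exact_mod_cast this
    have h7 : ((Finset.univ.filter fun i => Crosses f (R (κ i))).card : ℝ) ≤
        η / 4 * (2 * C) := by
      have : ((Finset.univ.filter fun i => Crosses f (R (κ i))).card : ℝ) * s ≤
          η / 4 * (2 * C) * s := by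
        calc _ ≤ _ := h5'
          _ ≤ η / 4 * (2 * C * s) := mul_le_mul_of_nonneg_left h6 (by positivity)
          _ = _ := by ring
      exact le_of_mul_le_mul_right this hspos
    refine h7.trans ?_
    rw [hC]
    push_cast
    nlinarith [hη, Nat.cast_nonneg (α := ℝ) T]

/-- Tree-like systems of labels. -/
structure Sys {ι : Type} (hat : ι → V4) (η : ℝ) (A : Finset ι) (t : ℕ) where
  X : Type
  fX : Fintype X
  w : X → ℝ
  w0 : ∀ x, 0 ≤ w x
  wt : ∑ x, w x = t
  a : X → ι
  a' : X → ι
  aA : ∀ x, a x ∈ A
  a'A : ∀ x, a' x ∈ A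
  ne : ∀ x, w x ≠ 0 → a x ≠ a' x
  R : X → Fin 4 → V4
  R' : X → Fin 4 → V4
  hR : ∀ x, PosComb (hat (a x)) (R x)
  hR' : ∀ x, PosComb (hat (a' x)) (R' x)
  M1 : ∀ F : ι → V4 →ₗ[ℝ] ℝ, ∑ x, (if Crosses (F (a' x)) (R x) then w x else 0) ≤ η * t
  M2 : ∀ F : (Fin 4 → V4) → V4 →ₗ[ℝ] ℝ,
    ∑ x, (if Crosses (F (R x)) (R' x) then w x else 0) ≤ η * t
  ext : ∀ S : Finset X, ∃ l : List ι, (2 : ℝ) ^ (∑ x ∈ S, w x) ≤ l.length ∧ (∀ a ∈ l, a ∈ A) ∧
    l.Nodup ∧ l.Pairwise (fun a b => ∃ x ∈ S, PosComb (hat a) (R x) ∧ PosComb (hat b) (R' x))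

lemma two_rpow_add_le (a b : ℝ) : (2 : ℝ) ^ (1 + (a + b) / 2) ≤ (2 : ℝ) ^ a + (2 : ℝ) ^ b := by
  have h1 : (2 : ℝ) ^ (1 + (a + b) / 2) = 2 * ((2 : ℝ) ^ (a / 2) * (2 : ℝ) ^ (b / 2)) := by
    rw [← Real.rpow_add (by norm_num), Real.rpow_add (by norm_num), Real.rpow_one]
    ring_nf
  have h2 : (2 : ℝ) ^ a = (2 : ℝ) ^ (a / 2) * (2 : ℝ) ^ (a / 2) := by
    rw [← Real.rpow_add (by norm_num)]; ring_nf
  have h3 : (2 : ℝ) ^ b = (2 : ℝ) ^ (b / 2) * (2 : ℝ) ^ (b / 2) := by
    rw [← Real.rpow_add (by norm_num)]; ring_nf
  rw [h1, h2, h3]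
  nlinarith [sq_nonneg ((2 : ℝ) ^ (a / 2) - (2 : ℝ) ^ (b / 2))]

/-- B2-B3: every large set carries a system of depth `t`. -/
lemma exists_sys (hcells : CellsStmt) (η : ℝ) (hη : 0 < η) : ∃ K : ℕ, 1 ≤ K ∧
    ∀ (ι : Type) [Fintype ι] (hat : ι → V4) (t : ℕ) (A : Finset ι), K ^ t ≤ A.card →
    Nonempty (Sys hat η A t) := by
  obtain ⟨g, K, hg, hK, H⟩ := groups hcells (η / 2) (by positivity)
  refine ⟨K, hK, ?_⟩
  intro ι _ hat t
  induction t with
  | zero =>
    intro A hA
    have : 0 < A.card := by simpa using hA
    obtain ⟨a, ha⟩ := Finset.card_pos.1 this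
    exact ⟨{
      X := Empty
      fX := inferInstance
      w := fun x => x.elim
      w0 := fun x => x.elim
      wt := by simp
      a := fun x => x.elim
      a' := fun x => x.elim
      aA := fun x => x.elim
      a'A := fun x => x.elim
      ne := fun x => x.elim
      R := fun x => x.elim
      R' := fun x => x.elim
      hR := fun x => x.elim
      hR' := fun x => x.elim
      M1 := by intro F; simp
      M2 := by intro F; simp
      ext := by
        intro S
        refine ⟨[a], ?_, by simpa using ha, by simp, by simp⟩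
        have : S = ∅ := by ext x; exact x.elim
        rw [this]; simp }⟩
  | succ t ih =>
    intro A hA
    obtain ⟨G, R, hGA, hGc, hGd, hGR, hcr⟩ := H ι hat A (K ^ t) (Nat.one_le_pow _ _ hK)
      (by rw [pow_succ] at hA; rw [mul_comm]; exact hA)
    have hsub : ∀ i, Nonempty (Sys hat η (G i) t) := fun i => ih (G i) (hGc i)
    choose rep hrep using fun i => Finset.card_pos.1
      (lt_of_lt_of_le (Nat.pow_pos hK) (hGc i))
    let P : ∀ i, Sys hat η (G i) t := fun i => (hsub i).some
    let _ : ∀ i, Fintype (P i).X := fun i => (P i).fX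
    have hgR : (2 : ℝ) ≤ g := by exact_mod_cast hg
    set c : ℝ := 1 / (g * (g - 1)) with hc
    have hg0 : (0 : ℝ) < g := by linarith
    have hg1 : (0 : ℝ) < (g : ℝ) - 1 := by linarith
    have hc0 : 0 < c := by rw [hc]; positivity
    have hcg : c * (g * (g - 1)) = 1 := by rw [hc]; field_simp
    -- bound for the root labels
    have hroot : ∀ (Q : Fin g → V4 →ₗ[ℝ] ℝ),
        ∑ j, ∑ i, (if Crosses (Q j) (R i) then c else 0) ≤ η := by
      intro Q
      have h1 : ∀ j, ∑ i, (if Crosses (Q j) (R i) then c else 0) ≤ c * (η / 2 * g) := by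
        intro j
        rw [← Finset.sum_filter, Finset.sum_const, nsmul_eq_mul, mul_comm]
        exact mul_le_mul_of_nonneg_left (hcr (Q j)) hc0.le
      calc ∑ j, ∑ i, (if Crosses (Q j) (R i) then c else 0)
          ≤ ∑ j : Fin g, c * (η / 2 * g) := Finset.sum_le_sum fun j _ => h1 j
        _ = c * (g * g) * (η / 2) := by
            rw [Finset.sum_const, Finset.card_univ, Fintype.card_fin, nsmul_eq_mul]; ring
        _ ≤ 2 * (η / 2) := by
            apply mul_le_mul_of_nonneg_right _ (by positivity)
            have : c * (g * g) = 1 + c * g := by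
              have : c * (g * g) = c * (g * (g - 1)) + c * g := by ring
              rw [this, hcg]
            rw [this]
            have h2 : c * g ≤ 1 := by
              calc c * g ≤ c * (g * (g - 1)) := by
                    apply mul_le_mul_of_nonneg_left _ hc0.le
                    nlinarith
                _ = 1 := hcg
            linarith
        _ = η := by ring
    refine ⟨{
      X := (Fin g × Fin g) ⊕ (Σ i : Fin g, (P i).X)
      fX := inferInstance
      w := Sum.elim (fun p => if p.1 = p.2 then 0 else c) (fun q => (P q.1).w q.2 / g)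
      w0 := ?_
      wt := ?_
      a := Sum.elim (fun p => rep p.1) (fun q => (P q.1).a q.2)
      a' := Sum.elim (fun p => rep p.2) (fun q => (P q.1).a' q.2)
      aA := ?_
      a'A := ?_
      ne := ?_
      R := Sum.elim (fun p => R p.1) (fun q => (P q.1).R q.2)
      R' := Sum.elim (fun p => R p.2) (fun q => (P q.1).R' q.2)
      hR := ?_
      hR' := ?_
      M1 := ?_
      M2 := ?_
      ext := ?_ }⟩
    · rintro (p | q)
      · simp only [Sum.elim_inl]; split_ifs <;> [exact le_rfl; exact hc0.le]
      · simp only [Sum.elim_inr]; exact div_nonneg ((P q.1).w0 q.2) hg0.le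
    · rw [Fintype.sum_sum_type]
      simp only [Sum.elim_inl, Sum.elim_inr]
      rw [Fintype.sum_prod_type, Fintype.sum_sigma]
      have h1 : ∀ i : Fin g, ∑ j, (if i = j then (0 : ℝ) else c) = (g - 1) * c := by
        intro i
        have : ∑ j, (if i = j then (0 : ℝ) else c) = ∑ j, (c - if i = j then c else 0) := by
          apply Finset.sum_congr rfl; intro j _; split_ifs <;> ring
        rw [this, Finset.sum_sub_distrib, Finset.sum_ite_eq]
        simp
        ring
      have h2 : ∀ i : Fin g, ∑ y, (P i).w y / (g : ℝ) = t / g := by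
        intro i
        rw [← Finset.sum_div, (P i).wt]
      rw [Finset.sum_congr rfl (fun i _ => h1 i), Finset.sum_congr rfl (fun i _ => h2 i)]
      rw [Finset.sum_const, Finset.sum_const, Finset.card_univ, Fintype.card_fin]
      simp only [nsmul_eq_mul]
      have : (g : ℝ) * ((g - 1) * c) = 1 := by
        calc (g : ℝ) * ((g - 1) * c) = c * (g * (g - 1)) := by ring
          _ = 1 := hcg
      rw [this]
      field_simp
      push_cast
      ring
    · rintro (p | q)
      · exact hGA _ (hrep p.1)
      · exact hGA _ ((P q.1).aA q.2)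
    · rintro (p | q)
      · exact hGA _ (hrep p.2)
      · exact hGA _ ((P q.1).a'A q.2)
    · rintro (p | q)
      · simp only [Sum.elim_inl]
        intro h he
        by_cases hp : p.1 = p.2
        · simp [hp] at h
        · have := Finset.disjoint_left.1 (hGd _ _ hp) (hrep p.1)
          rw [he] at this
          exact this (hrep p.2)
      · simp only [Sum.elim_inr]
        intro h
        exact (P q.1).ne q.2 (fun h0 => h (by rw [h0]; simp))
    · rintro (p | q)
      · exact hGR _ _ (hrep p.1)
      · exact (P q.1).hR q.2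
    · rintro (p | q)
      · exact hGR _ _ (hrep p.2)
      · exact (P q.1).hR' q.2
    · intro F
      rw [Fintype.sum_sum_type]
      simp only [Sum.elim_inl, Sum.elim_inr]
      rw [Fintype.sum_prod_type_right, Fintype.sum_sigma]
      have h1 := hroot (fun j => F (rep j))
      have h2 : ∀ i : Fin g, ∑ y, (if Crosses (F ((P i).a' y)) ((P i).R y) then (P i).w y / (g : ℝ)
          else 0) ≤ η * t / g := by
        intro i
        have := (P i).M1 F
        calc ∑ y, (if Crosses (F ((P i).a' y)) ((P i).R y) then (P i).w y / (g : ℝ) else 0)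
            = (∑ y, (if Crosses (F ((P i).a' y)) ((P i).R y) then (P i).w y else 0)) / g := by
              rw [Finset.sum_div]
              apply Finset.sum_congr rfl; intro y _; split_ifs <;> simp
          _ ≤ _ := div_le_div_of_nonneg_right this hg0.le
      have h3 : ∑ y : Fin g, ∑ x, (if Crosses (F (rep y)) (R x) then (if x = y then 0 else c)
          else 0) ≤ ∑ j, ∑ i, (if Crosses (F (rep j)) (R i) then c else 0) := by
        apply Finset.sum_le_sum; intro j _
        apply Finset.sum_le_sum; intro i _
        split_ifs <;> first | exact le_rfl | exact hc0.le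
      have h4 : ∑ i : Fin g, ∑ y, (if Crosses (F ((P i).a' y)) ((P i).R y)
          then (P i).w y / (g : ℝ) else 0) ≤ η * t := by
        calc _ ≤ ∑ i : Fin g, η * t / g := Finset.sum_le_sum fun i _ => h2 i
          _ = _ := by
            rw [Finset.sum_const, Finset.card_univ, Fintype.card_fin, nsmul_eq_mul]
            field_simp
      push_cast
      refine le_trans (add_le_add (h3.trans h1) h4) (le_of_eq (by ring))
    · intro F
      rw [Fintype.sum_sum_type]
      simp only [Sum.elim_inl, Sum.elim_inr]
      rw [Fintype.sum_prod_type, Fintype.sum_sigma]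
      have h1 := hroot (fun j => F (R j))
      have h2 : ∀ i : Fin g, ∑ y, (if Crosses (F ((P i).R y)) ((P i).R' y) then (P i).w y / (g : ℝ)
          else 0) ≤ η * t / g := by
        intro i
        have := (P i).M2 F
        calc ∑ y, (if Crosses (F ((P i).R y)) ((P i).R' y) then (P i).w y / (g : ℝ) else 0)
            = (∑ y, (if Crosses (F ((P i).R y)) ((P i).R' y) then (P i).w y else 0)) / g := by
              rw [Finset.sum_div]
              apply Finset.sum_congr rfl; intro y _; split_ifs <;> simp
          _ ≤ _ := div_le_div_of_nonneg_right this hg0.le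
      have h3 : ∑ x : Fin g, ∑ y, (if Crosses (F (R x)) (R y) then (if x = y then 0 else c)
          else 0) ≤ ∑ j, ∑ i, (if Crosses (F (R j)) (R i) then c else 0) := by
        apply Finset.sum_le_sum; intro j _
        apply Finset.sum_le_sum; intro i _
        split_ifs <;> first | exact le_rfl | exact hc0.le
      have h4 : ∑ i : Fin g, ∑ y, (if Crosses (F ((P i).R y)) ((P i).R' y)
          then (P i).w y / (g : ℝ) else 0) ≤ η * t := by
        calc _ ≤ ∑ i : Fin g, η * t / g := Finset.sum_le_sum fun i _ => h2 i
          _ = _ := by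
            rw [Finset.sum_const, Finset.card_univ, Fintype.card_fin, nsmul_eq_mul]
            field_simp
      push_cast
      refine le_trans (add_le_add (h3.trans h1) h4) (le_of_eq (by ring))
    · intro S
      let Si : ∀ i, Finset (P i).X := fun i =>
        Finset.univ.filter (fun x => (Sum.inr ⟨i, x⟩ : (Fin g × Fin g) ⊕ (Σ i : Fin g, (P i).X)) ∈ S)
      let ω : Fin g → ℝ := fun i => ∑ x ∈ Si i, (P i).w x
      let v : Fin g → Fin g → ℝ := fun i j =>
        (if (Sum.inl (i, j) : (Fin g × Fin g) ⊕ (Σ i : Fin g, (P i).X)) ∈ S then 1 else 0)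
          + (ω i + ω j) / 2
      have hS : ∑ x ∈ S, Sum.elim (fun p : Fin g × Fin g => if p.1 = p.2 then 0 else c)
          (fun q : (Σ i : Fin g, (P i).X) => (P q.1).w q.2 / (g : ℝ)) x
          = ∑ i, ∑ j, (if i = j then 0 else c * v i j) := by
        have e0 : ∀ (f : ((Fin g × Fin g) ⊕ (Σ i : Fin g, (P i).X)) → ℝ), ∑ x ∈ S, f x
            = ∑ x, if x ∈ S then f x else 0 := by
          intro f
          rw [← Finset.sum_filter]; congr 1; ext x; simp
        rw [e0, Fintype.sum_sum_type]
        simp only [Sum.elim_inl, Sum.elim_inr]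
        rw [Fintype.sum_prod_type, Fintype.sum_sigma]
        have e1 : ∀ i : Fin g, (∑ y, if (Sum.inr ⟨i, y⟩ : (Fin g × Fin g) ⊕
            (Σ i : Fin g, (P i).X)) ∈ S then (P i).w y / (g : ℝ) else 0) = ω i / g := by
          intro i
          simp only [ω, Si]
          rw [Finset.sum_filter, Finset.sum_div]
          apply Finset.sum_congr rfl; intro y _; split_ifs <;> simp
        rw [Finset.sum_congr rfl (fun i _ => e1 i)]
        have e2 : ∑ i, ∑ j, (if i = j then 0 else c * v i j) =
            (∑ i, ∑ j, (if (Sum.inl (i, j) : (Fin g × Fin g) ⊕ (Σ i : Fin g, (P i).X)) ∈ S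
              then (if i = j then 0 else c) else 0)) + ∑ i, ∑ j,
              (if i = j then 0 else c * ((ω i + ω j) / 2)) := by
          rw [← Finset.sum_add_distrib]
          apply Finset.sum_congr rfl; intro i _
          rw [← Finset.sum_add_distrib]
          apply Finset.sum_congr rfl; intro j _
          simp only [v]
          split_ifs <;> ring
        rw [e2]
        congr 1
        have e3 : ∀ i : Fin g, ∑ j, (if i = j then 0 else c * ((ω i + ω j) / 2)) =
            c / 2 * (g * ω i + ∑ j, ω j) - c * ω i := by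
          intro i
          have : ∑ j, (if i = j then 0 else c * ((ω i + ω j) / 2)) =
              ∑ j, (c / 2 * (ω i + ω j) - if i = j then c * ω j else 0) := by
            apply Finset.sum_congr rfl; intro j _
            split_ifs with h
            · rw [h]; ring
            · ring
          rw [this, Finset.sum_sub_distrib, Finset.sum_ite_eq, ← Finset.mul_sum,
            Finset.sum_add_distrib, Finset.sum_const, Finset.card_univ, Fintype.card_fin,
            nsmul_eq_mul]
          simp
        rw [Finset.sum_congr rfl (fun i _ => e3 i), Finset.sum_sub_distrib, ← Finset.mul_sum,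
          Finset.sum_add_distrib, Finset.sum_const, Finset.card_univ, Fintype.card_fin,
          nsmul_eq_mul, ← Finset.mul_sum, ← Finset.mul_sum, ← Finset.sum_div]
        have : 1 / (g : ℝ) = c * (g - 1) := by
          rw [hc]; field_simp
        rw [div_eq_mul_one_div, this]
        ring
      obtain ⟨i, j, hij, hv⟩ : ∃ i j, i ≠ j ∧ ∑ x ∈ S, Sum.elim
          (fun p : Fin g × Fin g => if p.1 = p.2 then 0 else c)
          (fun q : (Σ i : Fin g, (P i).X) => (P q.1).w q.2 / (g : ℝ)) x ≤ v i j := by
        by_contra hcon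
        push Not at hcon
        set Ω := ∑ x ∈ S, Sum.elim
          (fun p : Fin g × Fin g => if p.1 = p.2 then 0 else c)
          (fun q : (Σ i : Fin g, (P i).X) => (P q.1).w q.2 / (g : ℝ)) x with hΩ
        have h1 : ∑ i : Fin g, ∑ j : Fin g, (if i = j then 0 else c * v i j) <
            ∑ i : Fin g, ∑ j : Fin g, (if i = j then 0 else c * Ω) := by
          apply Finset.sum_lt_sum
          · intro i _
            apply Finset.sum_le_sum; intro j _
            split_ifs with h
            · exact le_rfl
            · exact mul_le_mul_of_nonneg_left (hcon i j h).le hc0.le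
          · refine ⟨⟨0, by omega⟩, Finset.mem_univ _, ?_⟩
            apply Finset.sum_lt_sum
            · intro j _
              split_ifs with h
              · exact le_rfl
              · exact mul_le_mul_of_nonneg_left (hcon _ j h).le hc0.le
            · refine ⟨⟨1, by omega⟩, Finset.mem_univ _, ?_⟩
              have hne : (⟨0, by omega⟩ : Fin g) ≠ ⟨1, by omega⟩ := by
                intro h; simp [Fin.ext_iff] at h
              rw [if_neg hne, if_neg hne]
              exact mul_lt_mul_of_pos_left (hcon _ _ hne) hc0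
        have h2 : ∑ i : Fin g, ∑ j : Fin g, (if i = j then 0 else c * Ω) = Ω := by
          have : ∀ i : Fin g, ∑ j : Fin g, (if i = j then 0 else c * Ω) = (g - 1) * (c * Ω) := by
            intro i
            have : ∑ j, (if i = j then (0 : ℝ) else c * Ω) =
                ∑ j, (c * Ω - if i = j then c * Ω else 0) := by
              apply Finset.sum_congr rfl; intro j _; split_ifs <;> ring
            rw [this, Finset.sum_sub_distrib, Finset.sum_ite_eq]
            simp
            ring
          rw [Finset.sum_congr rfl (fun i _ => this i), Finset.sum_const, Finset.card_univ,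
            Fintype.card_fin, nsmul_eq_mul]
          calc (g : ℝ) * ((g - 1) * (c * Ω)) = c * (g * (g - 1)) * Ω := by ring
            _ = Ω := by rw [hcg, one_mul]
        rw [h2, ← hS] at h1
        exact lt_irrefl _ h1
      obtain ⟨li, hli1, hli2, hli3, hli4⟩ := (P i).ext (Si i)
      obtain ⟨lj, hlj1, hlj2, hlj3, hlj4⟩ := (P j).ext (Si j)
      have lift : ∀ (i : Fin g) (l : List ι), l.Pairwise (fun a b => ∃ x ∈ Si i,
          PosComb (hat a) ((P i).R x) ∧ PosComb (hat b) ((P i).R' x)) →
          l.Pairwise (fun a b => ∃ x ∈ S, PosComb (hat a)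
            (Sum.elim (fun p : Fin g × Fin g => R p.1)
              (fun q : (Σ i : Fin g, (P i).X) => (P q.1).R q.2) x) ∧
            PosComb (hat b) (Sum.elim (fun p : Fin g × Fin g => R p.2)
              (fun q : (Σ i : Fin g, (P i).X) => (P q.1).R' q.2) x)) := by
        intro i l hl
        refine hl.imp ?_
        rintro a b ⟨x, hx, h1, h2⟩
        exact ⟨Sum.inr ⟨i, x⟩, (Finset.mem_filter.1 hx).2, h1, h2⟩
      by_cases hin : (Sum.inl (i, j) : (Fin g × Fin g) ⊕ (Σ i : Fin g, (P i).X)) ∈ S
      · refine ⟨li ++ lj, ?_, ?_, ?_, ?_⟩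
        · have h1 : v i j = 1 + (ω i + ω j) / 2 := by simp only [v, if_pos hin]
          rw [h1] at hv
          calc (2 : ℝ) ^ (∑ x ∈ S, Sum.elim (fun p : Fin g × Fin g => if p.1 = p.2 then 0 else c)
              (fun q : (Σ i : Fin g, (P i).X) => (P q.1).w q.2 / (g : ℝ)) x)
              ≤ (2 : ℝ) ^ (1 + (ω i + ω j) / 2) :=
                Real.rpow_le_rpow_of_exponent_le (by norm_num) hv
            _ ≤ (2 : ℝ) ^ ω i + (2 : ℝ) ^ ω j := two_rpow_add_le _ _
            _ ≤ li.length + lj.length := add_le_add hli1 hlj1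
            _ = _ := by rw [List.length_append]; push_cast; ring
        · intro a ha
          rcases List.mem_append.1 ha with h | h
          · exact hGA _ (hli2 a h)
          · exact hGA _ (hlj2 a h)
        · rw [List.nodup_append]
          refine ⟨hli3, hlj3, ?_⟩
          intro a ha b hb hab
          exact Finset.disjoint_left.1 (hGd i j hij) (hli2 a ha) (hab ▸ hlj2 b hb)
        · rw [List.pairwise_append]
          refine ⟨lift i li hli4, lift j lj hlj4, ?_⟩
          intro a ha b hb
          exact ⟨Sum.inl (i, j), hin, hGR i a (hli2 a ha), hGR j b (hlj2 b hb)⟩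
      · have h1 : v i j = (ω i + ω j) / 2 := by simp only [v, if_neg hin]; ring
        rw [h1] at hv
        rcases le_total (ω i) (ω j) with h | h
        · refine ⟨lj, ?_, fun a ha => hGA _ (hlj2 a ha), hlj3, lift j lj hlj4⟩
          exact (Real.rpow_le_rpow_of_exponent_le (by norm_num) (by linarith)).trans hlj1
        · refine ⟨li, ?_, fun a ha => hGA _ (hli2 a ha), hli3, lift i li hli4⟩
          exact (Real.rpow_le_rpow_of_exponent_le (by norm_num) (by linarith)).trans hli1

end Pool.Agent.LinKnot.H11
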